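import Pool.Agent.Helper88.AT.Fin

/-!
# Artin's holomorphy conjecture for almost all twists, with a power saving

`M/K` is an arbitrary Galois extension of number fields with group `G = M ≃ₐ[K] M`, `n = [K : ℚ]`, and
`Irr G` is the set of the irreducible complex characters of `G`.  For `φ` in `Irr G` and a primitive
Dirichlet character `χ` modulo `q`, `artinTw M φ (chs χ)` is the twisted Artin L-function
`L(s, φ ⊗ χ) = exp (∑_v ∑_k φ(Frob_v^k) χ(N v)^k / (k (N v)^(k s)))`, `Re s > 1`, the sum over the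
primes `v` of `K` unramified in `M`: the Artin L-function of the irreducible character
`φ ⊗ (χ ∘ cyclotomic character)` of the group of `M(ζ_q)/K`, without the Euler factors at the finitely
many primes ramified in `M` (they have neither zeros nor poles in `Re s > 0`).  `cont` is the
meromorphic continuation (Brauer), `meromorphicOrderAt (cont (artinTw M φ (chs χ))) s` the order at `s`.

The theorem: for almost all twists by Dirichlet characters Artin's conjecture (and the non-vanishing)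
holds in a wide region of the critical strip, with a power saving in the number of the exceptional
characters.  For instance, with `M/K`, `φ` arbitrary and `A` an abelian subgroup of index `m` in `G`:
for every `δ > 0`, `δ > 1/2 - 2/(n m)`, there are `C`, `κ > 0` such that for all but at most
`C (1 + T)^(2nm+1) Q^(2-κ)` of the (about `Q²`) primitive characters `χ` of conductor `q ≤ Q` prime to
`D` no `L(s, φ ⊗ χ)`, `φ ∈ Irr G`, has a zero or a pole with `Re s > 0`, `|Im s| ≤ T`,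
`|Re s - 1/2| ≥ δ`; for every `ε > 0` there is `δ < 1/2` for which the number of the exceptional
characters is at most `C (1 + T)^(2nm+1) Q^ε`.

In general the degree `m` may be chosen according to the character.  `PoleDeg m φ` says: whenever
integers `n χ` (`χ ∈ Irr G`) are such that `θ = ∑ n χ χ` has non-negative multiplicity against every
linear character of every subgroup `H` of `G`, and multiplicity zero for all `H` of index at most
`m`, then `0 ≤ n φ`; `ZeroDeg m φ` is the same with `n φ ≤ 0`.  `Quot a b φ`: some positive multiple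
of `φ` is a sum of characters induced from linear characters of subgroups of index at most `a` minus
a sum of characters induced from linear characters of subgroups of index at most `b`.  We prove that
`Quot a b φ` implies `PoleDeg b φ` and `ZeroDeg a φ`, and that an abelian subgroup of index at most `m`
implies `PoleDeg m φ` and `ZeroDeg m φ` for all `φ ∈ Irr G`.  Examples (not part of the theorem): for
`G = A₅` the character of degree three is `Ind_{C₅} ζ + 1 - Ind_{A₄} 1 - Ind_{A₄} ω`, so that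
`PoleDeg 5 φ`: for `K = ℚ` the poles of almost all twists of these (non-monomial) characters satisfy
`|Re s - 1/2| ≤ 1/10 + ε`; if `φ + 1` is a doubly transitive permutation character, then `PoleDeg 1 φ`.

`BadAt M m χ s`: for some `φ ∈ Irr G` the function `L(s, φ ⊗ χ)` has at `s` a pole and `PoleDeg m φ`
holds, or it has at `s` a zero and `ZeroDeg m φ` holds.  The number of the primitive `χ` of conductor
`q`, `2 ≤ q ≤ Q`, `q` prime to `D`, for which there is such a point with `Re s > 0`, `|Im s| ≤ T`,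
`|Re s - 1/2| ≥ δ`, is at most `C (1 + T)^(2nm+1) (1 + log Q)^B Q^E`, where, with `d = n m`,
* `E = 2 (1 - 2δ) (3 + (d+1) δ) / (3 - δ)` if `d ≤ 3`,
* `E = 2 (1 - 2δ) (5 + 2dδ) / (5 - 2δ)` if `d ≥ 4`;
it is smaller than `2` for all `δ > 0` if `d ≤ 4` and for `δ > 1/2 - 2/d` if `d ≥ 5`, and `0` for
`δ = 1/2`.  If `d ≤ 4`, then for almost all characters (all but `A Q² / (1 + log Q)^k`) the bad points
have a distance `O(log log Q / log Q)` (`d ≤ 3`) or the square root of this (`d = 4`) from the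
critical line.  There are similar results for the characters modulo one `q`.

Proof.  By Artin's reciprocity law the L-functions of the characters of `G` induced from linear
characters of subgroups `H` are, up to finitely many Euler factors, L-functions of primitive ray class
characters of the fixed field of `H`; the twists by the characters `χ ∘ N` have the same property, so
that they are entire, with a functional equation of degree `n [G : H]` and conductor `≪ q^(n [G : H])`,
and the density theorem for families of twists (mollifier and large sieve) applies.  By Brauer's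
theorem the orders at a point `s` of the functions `L(s, φ ⊗ χ)` are the coefficients of a Heilbronn
function of `G`, for all `χ`, with the same group `G`; if no L-function of a linear character of a
subgroup of index at most `m` vanishes at `s`, then `PoleDeg` and `ZeroDeg` apply to it.
-/

set_option autoImplicit false
set_option linter.unusedSectionVars false

namespace Pool.Agent.Results.MP_d2121a_nt.AlmostAllTwists

open NumberField Pool.Agent.H541R3.ART Pool.Agent.Q92.AR Pool.Agent.Helper88.AT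
open Pool.Agent.R399.TW (chs)

/-- The number of the primitive Dirichlet characters `χ` of conductor `q`, `2 ≤ q ≤ Q`, `q` prime to
`D`, which have the property `S q χ`. -/
noncomputable def count (D Q : ℕ) (S : (q : ℕ) → DirichletCharacter ℂ q → Prop) : ℕ :=
  ∑ q ∈ (Finset.Icc 2 Q).filter (fun q => Nat.Coprime q D),
    {χ : DirichletCharacter ℂ q | χ.IsPrimitive ∧ S q χ}.ncard

/-- The number of the primitive Dirichlet characters `χ` modulo `q` with the property `S χ`. -/
noncomputable def countq (q : ℕ) (S : DirichletCharacter ℂ q → Prop) : ℕ :=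
  {χ : DirichletCharacter ℂ q | χ.IsPrimitive ∧ S χ}.ncard

/-- The exponent of the density theorem. -/
noncomputable def expo (d : ℕ) (δ : ℝ) : ℝ :=
  if d ≤ 3 then 2 * (1 - 2 * δ) * (3 + (d + 1) * δ) / (3 - δ)
  else 2 * (1 - 2 * δ) * (5 + 2 * d * δ) / (5 - 2 * δ)

/-- For some irreducible character `φ`, `L(s, φ ⊗ χ)` has at `s` a pole and the degree `m` controls
the poles of `φ`, or it has at `s` a zero and the degree `m` controls the zeros of `φ`. -/
def BadAt (K : Type) [Field K] [NumberField K] (M : Type) [Field M] [NumberField M] [Algebra K M]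
    (m : ℕ) {q : ℕ} (χ : DirichletCharacter ℂ q) (s : ℂ) : Prop :=
  ∃ φ ∈ Irr (M ≃ₐ[K] M),
    (PoleDeg m φ ∧ meromorphicOrderAt (cont (artinTw M φ (chs χ))) s < 0) ∨
    (ZeroDeg m φ ∧ 0 < meromorphicOrderAt (cont (artinTw M φ (chs χ))) s)

/-- There is a bad point at distance at least `δ` from the critical line, `|Im s| ≤ T`. -/
def BadFar (K : Type) [Field K] [NumberField K] (M : Type) [Field M] [NumberField M] [Algebra K M]
    (m : ℕ) (δ T : ℝ) {q : ℕ} (χ : DirichletCharacter ℂ q) : Prop :=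
  ∃ s : ℂ, 0 < s.re ∧ |s.im| ≤ T ∧ δ ≤ |s.re - 1 / 2| ∧ BadAt K M m χ s

/-- There is a bad point which does not satisfy
`|Re s - 1/2|^a log Q ≤ A (log (1 + log Q) + log (2 + |Im s|))`. -/
def BadOff (K : Type) [Field K] [NumberField K] (M : Type) [Field M] [NumberField M] [Algebra K M]
    (m a : ℕ) (A : ℝ) (Q : ℕ) {q : ℕ} (χ : DirichletCharacter ℂ q) : Prop :=
  ∃ s : ℂ, 0 < s.re ∧ BadAt K M m χ s ∧
    A * (Real.log (1 + Real.log Q) + Real.log (2 + |s.im|)) < |s.re - 1 / 2| ^ a * Real.log Q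

/-- **The theorem.** Let `M/K` be a Galois extension of number fields with group `G`.

(A) The degrees which control the zeros and poles of an irreducible character: induced characters,
and abelian subgroups.

There is an integer `D > 0` such that for all primitive Dirichlet characters `χ` modulo `q ≥ 2`, `q`
prime to `D`:

(B) the L-functions `L(s, φ ⊗ χ)` of the irreducible characters `φ` of `G` have a meromorphic
continuation;

(C) abelian subgroups: all but a power saving of the `χ` have all their L-functions `L(s, φ ⊗ χ)`,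
`φ ∈ Irr G`, holomorphic and non-zero in the region; for every `ε > 0` there are at most
`C (1 + T)^(2d+1) Q^ε` exceptions for some `δ < 1/2`;

(D) for all `m`: (1) the density theorem, (2) the power saving, (3) the region near the lines
`Re s = 0`, `1`, (4) almost all characters if `[K : ℚ] m ≤ 4`, (5), (6) the characters modulo one
`q`. -/
theorem result (K M : Type) [Field K] [NumberField K] [Field M] [NumberField M] [Algebra K M]
    [IsGalois K M] :
    (∀ φ ∈ Irr (M ≃ₐ[K] M),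
      (∀ a b : ℕ, Quot a b φ → PoleDeg b φ ∧ ZeroDeg a φ) ∧
      (∀ (m : ℕ) (A : Subgroup (M ≃ₐ[K] M)), (∀ x y : A, x * y = y * x) → A.index ≤ m →
        PoleDeg m φ ∧ ZeroDeg m φ)) ∧
    ∃ D : ℕ, 0 < D ∧
    (∀ φ ∈ Irr (M ≃ₐ[K] M), ∀ (q : ℕ) (χ : DirichletCharacter ℂ q), 2 ≤ q → Nat.Coprime q D →
      χ.IsPrimitive → ∃ f : ℂ → ℂ, Continues f (artinTw M φ (chs χ))) ∧
    (∀ A : Subgroup (M ≃ₐ[K] M), (∀ x y : A, x * y = y * x) →
      (∀ δ : ℝ, 0 < δ → 1 / 2 - 2 / ((Module.finrank ℚ K * A.index : ℕ) : ℝ) < δ →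
        ∃ C κ : ℝ, 0 < κ ∧ ∀ (Q : ℕ) (T : ℝ), 1 ≤ Q → 0 ≤ T →
          (count D Q (fun _ χ => ∃ φ ∈ Irr (M ≃ₐ[K] M), ∃ s : ℂ, 0 < s.re ∧ |s.im| ≤ T ∧
            δ ≤ |s.re - 1 / 2| ∧ meromorphicOrderAt (cont (artinTw M φ (chs χ))) s ≠ 0) : ℝ) ≤
            C * (1 + T) ^ (2 * (Module.finrank ℚ K * A.index) + 1) * (Q : ℝ) ^ (2 - κ)) ∧
      (∀ ε : ℝ, 0 < ε → ∃ δ C : ℝ, δ < 1 / 2 ∧ ∀ (Q : ℕ) (T : ℝ), 1 ≤ Q → 0 ≤ T →
          (count D Q (fun _ χ => ∃ φ ∈ Irr (M ≃ₐ[K] M), ∃ s : ℂ, 0 < s.re ∧ |s.im| ≤ T ∧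
            δ ≤ |s.re - 1 / 2| ∧ meromorphicOrderAt (cont (artinTw M φ (chs χ))) s ≠ 0) : ℝ) ≤
            C * (1 + T) ^ (2 * (Module.finrank ℚ K * A.index) + 1) * (Q : ℝ) ^ ε)) ∧
    ∀ m : ℕ,
      (∃ C B : ℝ, ∀ (Q : ℕ) (δ T : ℝ), 1 ≤ Q → 0 ≤ δ → δ ≤ 1 / 2 → 0 ≤ T →
        (count D Q (fun _ χ => BadFar K M m δ T χ) : ℝ) ≤
          C * (1 + T) ^ (2 * (Module.finrank ℚ K * m) + 1) * (1 + Real.log Q) ^ B *
            (Q : ℝ) ^ (expo (Module.finrank ℚ K * m) δ)) ∧
      (∀ δ : ℝ, 0 < δ → 1 / 2 - 2 / ((Module.finrank ℚ K * m : ℕ) : ℝ) < δ →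
        ∃ C κ : ℝ, 0 < κ ∧ ∀ (Q : ℕ) (T : ℝ), 1 ≤ Q → 0 ≤ T →
          (count D Q (fun _ χ => BadFar K M m δ T χ) : ℝ) ≤
            C * (1 + T) ^ (2 * (Module.finrank ℚ K * m) + 1) * (Q : ℝ) ^ (2 - κ)) ∧
      (∀ ε : ℝ, 0 < ε → ∃ δ C : ℝ, δ < 1 / 2 ∧ ∀ (Q : ℕ) (T : ℝ), 1 ≤ Q → 0 ≤ T →
          (count D Q (fun _ χ => BadFar K M m δ T χ) : ℝ) ≤
            C * (1 + T) ^ (2 * (Module.finrank ℚ K * m) + 1) * (Q : ℝ) ^ ε) ∧
      (Module.finrank ℚ K * m ≤ 4 → ∀ k : ℝ, ∃ A : ℝ, 0 < A ∧ ∀ Q : ℕ, 1 ≤ Q →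
        (count D Q (fun _ χ =>
          BadOff K M m (if Module.finrank ℚ K * m ≤ 3 then 1 else 2) A Q χ) : ℝ) ≤
            A * (Q : ℝ) ^ 2 / (1 + Real.log Q) ^ k) ∧
      (∀ δ : ℝ, 0 < δ → 1 / 2 - 1 / ((Module.finrank ℚ K * m : ℕ) : ℝ) < δ →
        ∃ C κ : ℝ, 0 < κ ∧ ∀ (q : ℕ) (T : ℝ), 2 ≤ q → Nat.Coprime q D → 0 ≤ T →
          (countq q (fun χ => BadFar K M m δ T χ) : ℝ) ≤
            C * (1 + T) ^ (2 * (Module.finrank ℚ K * m) + 1) * (q : ℝ) ^ (1 - κ)) ∧
      (∀ ε : ℝ, 0 < ε → ∃ δ C : ℝ, δ < 1 / 2 ∧ ∀ (q : ℕ) (T : ℝ), 2 ≤ q →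
        Nat.Coprime q D → 0 ≤ T →
          (countq q (fun χ => BadFar K M m δ T χ) : ℝ) ≤
            C * (1 + T) ^ (2 * (Module.finrank ℚ K * m) + 5) * (q : ℝ) ^ ε) := by
  refine ⟨fun φ hφ => ⟨fun a b h => quot_deg hφ h, fun m A hA hm => abelian_deg A hA hm hφ⟩, ?_⟩
  obtain ⟨D, hD, hcont, h⟩ := final K M
  have hab : ∀ (A : Subgroup (M ≃ₐ[K] M)), (∀ x y : A, x * y = y * x) → ∀ (Q : ℕ) (δ T : ℝ),
      (count D Q (fun _ χ => ∃ φ ∈ Irr (M ≃ₐ[K] M), ∃ s : ℂ, 0 < s.re ∧ |s.im| ≤ T ∧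
            δ ≤ |s.re - 1 / 2| ∧ meromorphicOrderAt (cont (artinTw M φ (chs χ))) s ≠ 0) : ℝ) ≤
      (Pool.Agent.R399.TW.count D Q
        (fun _ χ => Pool.Agent.Helper88.AT.BadFar K M A.index δ T χ) : ℝ) := by
    intro A hA Q δ T
    exact_mod_cast count_mono (N := D) (N' := D) dvd_rfl fun q χ _ _ _ hb => by
      obtain ⟨φ, hφ, s, h0, h1, h2, h3⟩ := hb
      obtain ⟨p1, p2⟩ := abelian_deg A hA le_rfl hφ
      refine ⟨s, h0, h1, h2, φ, hφ, ?_⟩
      rcases lt_or_gt_of_ne h3 with h4 | h4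
      · exact Or.inl ⟨p1, h4⟩
      · exact Or.inr ⟨p2, h4⟩
  refine ⟨D, hD, hcont, fun A hA => ⟨fun δ hδ hδ1 => ?_, fun ε hε => ?_⟩, fun m => ?_⟩
  · obtain ⟨-, h2, -⟩ := h A.index
    obtain ⟨C, κ, -, hκ, h3⟩ := h2 δ hδ hδ1
    exact ⟨C, κ, hκ, fun Q T hQ hT => (hab A hA Q δ T).trans (h3 Q T hQ hT)⟩
  · obtain ⟨-, -, h2, -⟩ := h A.index
    obtain ⟨δ, C, -, hδ, -, h3⟩ := h2 ε hε
    exact ⟨δ, C, hδ, fun Q T hQ hT => (hab A hA Q δ T).trans (h3 Q T hQ hT)⟩
  obtain ⟨h1, h2, h3, h4, h5, h6⟩ := h m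
  refine ⟨?_, fun δ hδ hδ1 => ?_, fun ε hε => ?_, h4, fun δ hδ hδ1 => ?_, fun ε hε => ?_⟩
  · obtain ⟨C, B, -, -, hd⟩ := h1
    exact ⟨C, B, hd⟩
  · obtain ⟨C, κ, -, hκ, hd⟩ := h2 δ hδ hδ1
    exact ⟨C, κ, hκ, hd⟩
  · obtain ⟨δ, C, -, hδ, -, hd⟩ := h3 ε hε
    exact ⟨δ, C, hδ, hd⟩
  · obtain ⟨C, κ, -, hκ, hd⟩ := h5 δ hδ hδ1
    exact ⟨C, κ, hκ, hd⟩
  · obtain ⟨δ, C, -, hδ, -, hd⟩ := h6 ε hε
    exact ⟨δ, C, hδ, hd⟩

end Pool.Agent.Results.MP_d2121a_nt.AlmostAllTwists
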