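import Pool.Agent.Helper88.RX.FinN

/-!
# A log-free zero density theorem for all Artin L-functions of bounded degree, without Artin's conjecture

`K` is a number field; all extensions are subfields `L` of an algebraic closure of `K`.  `Pairs K` is the type
of the pairs `(L, χ)` of such a field and a function `χ` on the group `L ≃ₐ[K] L`; an irreducible Artin
representation of `K` (an irreducible complex representation with finite image of the absolute Galois group)
is the same thing as a pair `(L, χ)`, `L/K` a finite Galois extension, `χ` a FAITHFUL irreducible character of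
its Galois group.  `Irr` denotes the irreducible complex characters, `artinL L χ` the Artin L-function
`L(s, χ) = exp (∑_v ∑_k χ(Frob_v^k) / (k (N v)^(k s)))`, `Re s > 1`, the sum over the primes `v` of `K`
unramified in `L` (without the Euler factors at the ramified primes, which have neither zeros nor poles in
`Re s > 0`), `cont` its meromorphic continuation (Brauer), `meromorphicOrderAt (cont (artinL L χ)) s` its order.

`Bad K d Q T δ L χ` says that `L/K` is a finite Galois extension of any degree with root discriminant
`|discr L|^(1/[L:ℚ]) ≤ Q`, that `χ` is a faithful irreducible character of degree at most `d`, and that `L(s, χ)`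
has a zero or a pole at some `s ≠ 1` with `Re s ≥ 1 - δ`, `|Im s| ≤ T`.  There is no condition on the Galois
group: its order and its exponent can be as large as a power of `Q`.

The theorem: for all `K` and `d` there are `c > 0`, `E`, `C` such that for all `0 ≤ δ ≤ c`, `Q ≥ 1`, `T ≥ 0` at
most `C (Q (1 + T))^(E δ)` pairs `(L, χ)` are bad.  Nothing is assumed.  With `δ = ε / E` it follows that all but
`O((Q (1 + T))^ε)` Artin L-functions are holomorphic and have no zeros in the region `Re s ≥ 1 - ε / E`; with
`δ = B / log (Q (1 + T))` that the number of exceptions for the region `Re s ≥ 1 - B / log (Q (1 + T))` is at most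
`C e^(E B)`, BOUNDED independently of `Q` and `T`.

Proof.  (1) Let `χ` be a faithful irreducible character of `G`, `χ(1) ≤ d`.  By Jordan's theorem, in the form
of a bound for the index of the centre of a character, there is an abelian normal subgroup `A` of index at most
`J(d)`.  (2) A new theorem on Heilbronn functions: a Heilbronn function `θ` of `G` with `⟨θ, χ⟩ ≠ 0` has
`⟨θ|B, β⟩ ≠ 0` for some subgroup `B ≥ A` and linear character `β` of `B` which is nontrivial on `B ∩ N` for all
normal subgroups `N ≠ 1` of `G`, and whose restriction to `A` occurs in `χ|A`.  So a zero or pole of `L(s, χ)`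
gives a zero of the Hecke L-function `L(s, β)` of a field of degree at most `J(d)` over `K`.  (3) For two such
representations the Rankin-Selberg type product of `Ind β` and the conjugate of `Ind β'` is a product of at most
`J(d)` Hecke L-functions of NONTRIVIAL characters, hence holomorphic, unless `L = L'` and `β|A`, `β'|A` are
conjugate, and each representation is in this relation to at most `J(d)` others.  Its size is bounded by an
explicit form of Artin's reciprocity law (modulus given by the ramified primes and the order of the
character) and bounds for primitive Hecke L-functions; the product of the ramified primes is bounded in terms of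
the root discriminant.  (4) An abstract log-free zero density theorem for families of Euler products: Turan's
power sum method detects a zero by a short sum over primes with a kernel `e^(-y) y^k / k!`, and a large sieve
inequality for sums over primes, with Selberg's weights attached to tuples of prime powers, bounds the number of
forms for which this sum is large.  (5) Step (3) needs that the exponent of the Galois group is bounded by a power
of `Q`.  This is a new theorem too (`Pool/Agent/Helper88/RX/Stm.lean`): for every `n` the degree of a cyclic
extension of number fields `M/F`, `[F : ℚ] ≤ n`, is at most `(C Q)^C`, `Q` the root discriminant of `M`; it is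
proved with the ramification groups (the different of the wildly ramified subextensions of degree `p`, tame
inertia groups of abelian extensions) and, for unramified extensions, the class number.

Modules of helper28 (large sieves, Jordan's theorem, counting of characters, differents, tame inertia, class
numbers), helper45 (discriminants), helper48 (bounds for Hecke L-functions, centres of characters, Selberg's
weights, ramification groups), helper64 (detection of zeros, products of induced characters, Clifford theory part
of (2)), helper88 (the rest).
-/

set_option autoImplicit false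

namespace Pool.Agent.Results.MP_d2121a_nt.LogFreeDensity

open NumberField Pool.Agent.H541R3.ART Pool.Agent.Q92.AR Pool.Agent.Helper88.AF

/-- the pairs of an extension of `K` in an algebraic closure and a function on its group -/
abbrev Pairs (K : Type) [Field K] : Type :=
  Σ L : IntermediateField K (AlgebraicClosure K), ((L ≃ₐ[K] L) → ℂ)

/-- `χ` is a faithful irreducible character of degree at most `d` -/
def Faithful (G : Type) [Group G] (d : ℕ) (χ : G → ℂ) : Prop :=
  χ ∈ Irr G ∧ (∀ g, χ g = χ 1 → g = 1) ∧ ∃ e : ℕ, e ≤ d ∧ χ 1 = e

/-- `L(s, χ)` has a zero or a pole `s ≠ 1` with `Re s ≥ 1 - δ`, `|Im s| ≤ T` -/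
def ZeroOrPole (K L : Type) [Field K] [NumberField K] [Field L] [NumberField L] [Algebra K L]
    [IsGalois K L] (T δ : ℝ) (χ : (L ≃ₐ[K] L) → ℂ) : Prop :=
  ∃ s : ℂ, s ≠ 1 ∧ 1 - δ ≤ s.re ∧ |s.im| ≤ T ∧ meromorphicOrderAt (cont (artinL L χ)) s ≠ 0

/-- `L/K` is a finite Galois extension with root discriminant at most `Q`, `χ` is a faithful irreducible
character of degree at most `d` of its Galois group, and `L(s, χ)` has a zero or a pole `s ≠ 1` with
`Re s ≥ 1 - δ`, `|Im s| ≤ T` -/
def Bad (K : Type) [Field K] [NumberField K] (d : ℕ) (Q T δ : ℝ)
    (L : IntermediateField K (AlgebraicClosure K)) (χ : (L ≃ₐ[K] L) → ℂ) : Prop :=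
  ∃ (_ : NumberField L) (_ : IsGalois K L), |(discr L : ℝ)| ≤ Q ^ Module.finrank ℚ L ∧
    Faithful (L ≃ₐ[K] L) d χ ∧ ZeroOrPole K L T δ χ

/-- For every number field `K` and integer `d` there are `c > 0`, `E`, `C` such that for all `0 ≤ δ ≤ c`,
`Q ≥ 1`, `T ≥ 0`: there are only finitely many, and at most `C (Q (1 + T))^(E δ)`, pairs `(L, χ)` of a Galois
extension `L/K` with root discriminant at most `Q` and a faithful irreducible character `χ` of degree at most
`d` of its Galois group whose Artin L-function has a zero or a pole `s ≠ 1` with `Re s ≥ 1 - δ`, `|Im s| ≤ T`. -/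
theorem result (K : Type) [Field K] [NumberField K] (d : ℕ) :
    ∃ c E C : ℝ, 0 < c ∧ ∀ δ Q T : ℝ, 0 ≤ δ → δ ≤ c → 1 ≤ Q → 0 ≤ T →
      {x : Pairs K | Bad K d Q T δ x.1 x.2}.Finite ∧
        ({x : Pairs K | Bad K d Q T δ x.1 x.2}.ncard : ℝ) ≤ C * (Q * (1 + T)) ^ (E * δ) := by
  obtain ⟨c, E, C, hc, h⟩ := Pool.Agent.Helper88.RX.mainN_set K d
  refine ⟨c, E, C, hc, fun δ Q T hδ hδc hQ hT => ?_⟩
  have e : {x : Pairs K | Bad K d Q T δ x.1 x.2} = {x : Rp K | Pool.Agent.Helper88.RX.BadN K d Q T δ x} := by
    ext x
    constructor
    · rintro ⟨h1, h2, h3, ⟨h5, h6, h7⟩, h8⟩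
      exact ⟨h1, h2, h3, h5, h6, h7, h8⟩
    · rintro ⟨h1, h2, h3, h5, h6, h7, h8⟩
      exact ⟨h1, h2, h3, ⟨h5, h6, h7⟩, h8⟩
  rw [e]
  exact h δ Q T hδ hδc hQ hT

end Pool.Agent.Results.MP_d2121a_nt.LogFreeDensity
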