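import Mathlib
import Pool.Agent.Helper48.UH.Main
import Pool.Agent.Helper48.UH.Fld

/-!
# All zeros and poles of an Artin L-function of degree `d` are zeros of one Hecke L-function whose
# degree is bounded in terms of `d`

`M/K` is a Galois extension of number fields with group `M ≃ₐ[K] M`, an arbitrary finite group;
`Pool.Agent.H541R3.ART.Irr G` is the set of irreducible complex characters of the group `G`.

`Pool.Agent.Q92.AR.artinL M χ` is the Artin L-function `L(s, χ)` of a class function `χ` of the Galois
group, for `Re s > 1`: `exp ∑ χ(Frob_v ^ n) / (n q_v ^ (n s))` over `n ≥ 1` and the primes `v` of `K` which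
are unramified in `M`. The Euler factors of the finitely many ramified primes, which are left out,
have no zeros and poles for `Re s > 0`. For a linear character `l` of the Galois group of `M/F` it is a
Hecke L-function of the field `F`. `Pool.Agent.Q92.AR.cont f` is the meromorphic continuation to
`ℂ` of a function `f` given for `Re s > 1`, and `Continues g f` says that `g` is a meromorphic
continuation of `f`. Nothing is assumed: the continuations exist by Artin's reciprocity law, Hecke's
theorem and Brauer's induction theorem, which are proved in the library `Pool.Agent.Q92.AR`.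

It was known (Heilbronn, Stark, Foote, Murty) that the order of `L(s, χ)` at `s₀` is bounded in
absolute value by the order of the zeta function of `M`, of degree `[M : K]`, which is not bounded in
terms of the degree `χ(1)`. Here `ζ_M` is replaced by a single Hecke L-function of a field `F` of a
degree over `K` bounded in terms of `χ(1)` only, for all Galois groups: `L(s, l) L(s, χ)` and
`L(s, l) / L(s, χ)` are holomorphic, and the field `F` is the same for all twists of `χ`.

Proof. `χ` is induced from a character `ψ` of a subgroup `T` such that the abelian normal subgroups of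
the image of `ψ` are central (Clifford). Let `Z` be the centre of `ψ` and `ω` its central character, `e`
the degree of `ψ` and `i = [T : Z]`. In a norm invariant under `T` the elements of `T` at a distance less
than `1/2` from `1` are central: otherwise a noncentral one next to `1` commutes with all of them, and
lies in an abelian normal subgroup. So `i ≤ 25 ^ (e ^ 2)` by a packing argument in a real vector space of
dimension `2 e ^ 2`; for solvable groups a theorem on linear groups gives `i ≤ e ^ 7`. The orders at `s₀`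
are the multiplicities in a Heilbronn function, whose part over `ω` is bounded by the order `k` of
`L(s, ω)`. So the order `n` of `L(s, χ)` satisfies `|i n - k e| ≤ k m`, where `m` is the sum of the
`|ψ(t)|` over the classes `t ≠ 1` of `T / Z`. The products of all conjugates of the algebraic integers
`ψ(t) ≠ 0` have absolute value at least `1`, so `m ≤ ∑ |ψ(t)| ^ 2 = i - e ^ 2`.
-/

set_option autoImplicit false

open Pool.Agent.H541R3.ART Pool.Agent.W446.AS Pool.Agent.R362 Pool.Agent.Q92.AR
  Pool.Agent.Helper48.UH

/-- Let `M/K` be a Galois extension of number fields and `χ` an irreducible character of its group, of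
degree `d`. There are a field `F` between `K` and `M`, a linear character `l` of the group of `M/F`
which is a constituent of the restriction of `χ`, a divisor `e` of `d` and a number `i` such that
`[F : K] = (d / e) i`, `e ^ 2 ≤ i ≤ 25 ^ (e ^ 2)`, and `i ≤ e ^ 7` if the group is solvable (so
`[F : K] ≤ d 25 ^ (d ^ 2)`, and `[F : K] ≤ d ^ 7` if the group is solvable), with the following property.

Let `n` and `k` be the orders of `L(s, χ)` and of the Hecke L-function `L(s, l)` of `F` at a point
`s₀ ≠ 1` with `Re s₀ > 0`. Then `k ≥ 0`, `|n| ≤ k`, and more precisely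
`i n ≤ (i - e (e - 1)) k` and `- i n ≤ (i - e (e + 1)) k`. The same holds for the twists `L(s, η χ)` and
`L(s, η l)` by all the linear characters `η` of the group of `M/K`. -/
theorem Pool.Agent.Results.MP_d2121a_nt.SingleHeckeDivisor.result
    (K M : Type) [Field K] [NumberField K] [Field M] [NumberField M] [Algebra K M] [IsGalois K M]
    (χ : (M ≃ₐ[K] M) → ℂ) (hχ : χ ∈ Irr (M ≃ₐ[K] M)) (d : ℕ) (hd : χ 1 = d) :
    ∃ (F : IntermediateField K M) (l : (M ≃ₐ[F] M) →* ℂˣ) (e i : ℕ),
      (e ∣ d ∧ e ^ 2 ≤ i ∧ i ≤ 25 ^ (e ^ 2) ∧ (Group.IsSolvable (M ≃ₐ[K] M) → i ≤ e ^ 7)) ∧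
      (Module.finrank K F * e = d * i ∧ Module.finrank K F ≤ d * 25 ^ (d ^ 2) ∧
        (Group.IsSolvable (M ≃ₐ[K] M) → Module.finrank K F ≤ d ^ 7)) ∧
      (∑ᶠ g : M ≃ₐ[F] M, χ (g.restrictScalars K) * (((l g)⁻¹ : ℂˣ) : ℂ) ≠ 0) ∧
      ∀ η : (M ≃ₐ[K] M) →* ℂˣ,
        Continues (cont (artinL M fun g => ((η g : ℂˣ) : ℂ) * χ g))
          (artinL M fun g => ((η g : ℂˣ) : ℂ) * χ g) ∧
        Continues
          (cont (artinL (K := F) M fun g => (((η (g.restrictScalars K) * l g : ℂˣ)) : ℂ)))
          (artinL (K := F) M fun g => (((η (g.restrictScalars K) * l g : ℂˣ)) : ℂ)) ∧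
        ∀ s₀ : ℂ, 0 < s₀.re → s₀ ≠ 1 → ∃ (n : ℤ) (k : ℕ),
          meromorphicOrderAt (cont (artinL M fun g => ((η g : ℂˣ) : ℂ) * χ g)) s₀
            = (n : WithTop ℤ) ∧
          meromorphicOrderAt
            (cont (artinL (K := F) M fun g => (((η (g.restrictScalars K) * l g : ℂˣ)) : ℂ))) s₀
            = (k : WithTop ℤ) ∧
          |n| ≤ k ∧ (i : ℤ) * n ≤ ((i : ℤ) - e * (e - 1)) * k ∧
          -((i : ℤ) * n) ≤ ((i : ℤ) - e * (e + 1)) * k := by
  classical
  obtain ⟨Z, ω, e, i, he, hed, hei, hi, his, hidx, hconst, hbound⟩ := exists_linear χ hχ hd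
  have hd0 : 0 < d := by
    obtain ⟨d', hd', hd'2⟩ := irr_deg_pos hχ
    rw [hd] at hd'2
    have : d = d' := by exact_mod_cast hd'2
    omega
  set F : IntermediateField K M := IntermediateField.fixedField Z with hF
  have hfix : fixer K F M = Z := fixer_fixedField Z
  have hmem : ∀ y : M ≃ₐ[F] M, y.restrictScalars K ∈ Z := by
    intro y
    rw [← hfix]
    intro x
    exact y.commutes x
  -- the isomorphism
  let r : (M ≃ₐ[F] M) →* Z :=
    { toFun := fun y => ⟨y.restrictScalars K, hmem y⟩
      map_one' := rfl
      map_mul' := fun a b => rfl }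
  have hrinj : Function.Injective r := by
    intro a b h
    have h1 : a.restrictScalars K = b.restrictScalars K := congrArg Subtype.val h
    ext x
    exact DFunLike.congr_fun h1 x
  have hrsurj : Function.Surjective r := by
    rintro ⟨z, hz⟩
    have hz' : z ∈ fixer K F M := by rw [hfix]; exact hz
    refine ⟨{ (z : M ≃ₐ[K] M) with commutes' := fun x => hz' x }, ?_⟩
    apply Subtype.ext
    ext x
    rfl
  have hfin : Module.finrank K F = Z.index := by
    rw [IntermediateField.finrank_eq_fixingSubgroup_index (F := K) M F, hF,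
      IntermediateField.fixingSubgroup_fixedField]
  have hdi : Module.finrank K F * e = d * i := by rw [hfin, hidx]
  obtain ⟨c, hc⟩ := hed
  have hci : Module.finrank K F = c * i := by
    have h1 : Module.finrank K F * e = c * i * e := by
      rw [hdi, hc]
      ring
    exact Nat.eq_of_mul_eq_mul_right he h1
  have hcpos : 0 < c := by
    rcases Nat.eq_zero_or_pos c with h | h
    · rw [hc, h, mul_zero] at hd0
      exact absurd hd0 (lt_irrefl _)
    · exact h
  have hcd : c ≤ d := by rw [hc]; exact Nat.le_mul_of_pos_left _ he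
  have hed' : e ≤ d := by rw [hc]; exact Nat.le_mul_of_pos_right _ hcpos
  refine ⟨F, ω.comp r, e, i, ⟨⟨c, hc⟩, hei, hi, his⟩, ⟨hdi, ?_, ?_⟩, ?_, ?_⟩
  · rw [hci]
    refine Nat.mul_le_mul hcd (hi.trans (Nat.pow_le_pow_right (by norm_num) ?_))
    exact Nat.pow_le_pow_left hed' 2
  · intro hs
    rw [hci]
    calc c * i ≤ c * e ^ 7 := Nat.mul_le_mul_left _ (his hs)
      _ ≤ c ^ 7 * e ^ 7 := Nat.mul_le_mul_right _ (Nat.le_self_pow (by norm_num) c)
      _ = d ^ 7 := by rw [hc]; ring
  · intro h0
    apply hconst
    have : Fintype Z := Fintype.ofFinite _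
    have : Fintype (M ≃ₐ[F] M) := Fintype.ofFinite _
    rw [finsum_eq_sum_of_fintype] at h0 ⊢
    rw [← h0]
    exact (Fintype.sum_bijective r ⟨hrinj, hrsurj⟩ _ _ fun y => rfl).symm
  · intro η
    have hcont : ∀ s₀ : ℂ, 0 < s₀.re → s₀ ≠ 1 → Continued (K := K) M s₀ := fun s₀ h0 h1 =>
      continued (K := K) (M := M) h0 h1
    have hC2 := hcont 2 (by norm_num) (by norm_num)
    have hirr : (fun g => ((η g : ℂˣ) : ℂ) * χ g) ∈ Irr (M ≃ₐ[K] M) := irr_twist hχ η
    -- the linear character of the fixer
    let q : fixer K F M →* Z := (MulEquiv.subgroupCongr hfix).toMonoidHom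
    have hlin : ∃ g, Continues g
        (artinL M (Pool.Agent.Q92.RT.induced (fixer K F M) ((ω * η.comp Z.subtype).comp q))) := by
      obtain ⟨f, hf, -⟩ := hC2.hecke (fixer K F M) ((ω * η.comp Z.subtype).comp q)
      exact ⟨f, hf⟩
    let l' : (M ≃ₐ[F] M) →* ℂˣ := (η.comp Z.subtype).comp r * ω.comp r
    have hl' : (fun g : M ≃ₐ[F] M => (((η (g.restrictScalars K) * (ω.comp r) g : ℂˣ)) : ℂ))
        = fun g => ((l' g : ℂˣ) : ℂ) := rfl
    obtain ⟨h3, h4⟩ := hecke_order (K := K) (F := F) (M := M) l'
      ((ω * η.comp Z.subtype).comp q) (by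
        intro y hy
        change ω (q _) * η _ = η _ * ω (r y)
        rw [mul_comm]
        rfl) hlin
    have h5 : ∀ s₀ : ℂ, meromorphicOrderAt (cont (artinL M
        (Pool.Agent.Q92.RT.induced (fixer K F M) ((ω * η.comp Z.subtype).comp q)))) s₀
        = meromorphicOrderAt (cont (artinL M
          (Pool.Agent.Q92.RT.induced Z (ω * η.comp Z.subtype)))) s₀ := by
      intro s₀
      have h6 : ∀ (H : Subgroup (M ≃ₐ[K] M)) (h : H = Z),
          Pool.Agent.Q92.RT.induced H ((ω * η.comp Z.subtype).comp
            (MulEquiv.subgroupCongr h).toMonoidHom)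
          = Pool.Agent.Q92.RT.induced Z (ω * η.comp Z.subtype) := by
        rintro H rfl
        rfl
      rw [h6 _ hfix]
    refine ⟨cont_spec (hC2.brauer _ hirr), h3, fun s₀ h0 h1 => ?_⟩
    set A := ArtinData.ofExtension (hcont s₀ h0 h1) with hA
    have hθ : Pool.Agent.H302R2.IsHeilbronn (theta A.ord : (M ≃ₐ[K] M) → ℂ) := A.isHeilbronn
    obtain ⟨k, hk⟩ := hθ.mult Z (ω * η.comp Z.subtype)
    obtain ⟨n, hn⟩ := (theta_virt A.ord).pr_int hirr
    have hkord := order_of_mult A hk
    have hnord : meromorphicOrderAt (A.L fun g => ((η g : ℂˣ) : ℂ) * χ g) s₀ = (n : WithTop ℤ) := by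
      have hpr := sum_eq_pr (theta A.ord) (fun g => ((η g : ℂˣ) : ℂ) * χ g)
      rw [hn] at hpr
      exact A.order_eq hirr hpr
    refine ⟨n, k, hnord, ?_, ?_⟩
    · have h7 := h4 s₀ h0
      rw [h5 s₀] at h7
      rw [← hl'] at h7
      exact h7.trans hkord
    · have h8 := hbound η _ hθ k hk n hn
      rw [abs_le] at h8
      have hi0 : (0 : ℤ) < i := by
        have : 0 < i := lt_of_lt_of_le (by positivity) hei
        exact_mod_cast this
      have hk0 : (0 : ℤ) ≤ k := Int.natCast_nonneg k
      have he1 : (1 : ℤ) ≤ e := by exact_mod_cast he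
      have h9 : (i : ℤ) * n ≤ ((i : ℤ) - e * (e - 1)) * k := by nlinarith [h8.2]
      have h10 : -((i : ℤ) * n) ≤ ((i : ℤ) - e * (e + 1)) * k := by nlinarith [h8.1]
      refine ⟨?_, h9, h10⟩
      have h11 : (0 : ℤ) ≤ e * (e - 1) * k := by
        have : (0 : ℤ) ≤ e * (e - 1) := mul_nonneg (by linarith) (by linarith)
        positivity
      have h12 : (0 : ℤ) ≤ e * (e + 1) * k := by positivity
      rw [abs_le]
      constructor
      · have h13 : (i : ℤ) * (-n) ≤ i * k := by nlinarith
        have h14 := le_of_mul_le_mul_left h13 hi0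
        linarith
      · have h13 : (i : ℤ) * n ≤ i * k := by nlinarith
        exact le_of_mul_le_mul_left h13 hi0
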