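import Mathlib
import Pool.Agent.Helper48.UH.UnifG
import Pool.Agent.Helper48.UH.Fld2

/-!
# Every Artin L-function of degree `d` is a quotient of products of at most `C(d)` Hecke L-functions
# of fields of degree at most `C(d)`

`M/K` is a Galois extension of number fields with group `M ≃ₐ[K] M`, an arbitrary finite group;
`Pool.Agent.H541R3.ART.Irr G` is the set of irreducible complex characters of the group `G`, and
`Pool.Agent.Q92.RT.induced H l` is the character induced by the linear character `l` of `H`.

`Pool.Agent.Q92.AR.artinL M χ` is the Artin L-function `L(s, χ)` of a class function `χ` of the Galois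
group, for `Re s > 1`: `exp ∑ χ(Frob_v ^ n) / (n q_v ^ (n s))` over `n ≥ 1` and the primes `v` of `K` which
are unramified in `M`. The Euler factors of the finitely many ramified primes, which are left out,
have no zeros and poles for `Re s > 0`. For a linear character `l` of the Galois group of `M/E` it is a
Hecke L-function of the field `E`. `Continues g f` says that `g` is a meromorphic continuation to `ℂ` of
the function `f`, given for `Re s > 1`. Nothing is assumed.

By Brauer's theorem `L(s, χ)` is a quotient of products of Hecke L-functions of intermediate fields,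
but their number, their exponents and the degrees of the fields depend on the Galois group, which can
be arbitrarily large for a given degree `χ(1) > 1`. Here they are bounded in terms of `χ(1)` only, for
all Galois extensions of all number fields, and all the fields lie in one field `F` of degree at most
`d 25 ^ (d ^ 2)` over `K`. So whether `L(s, χ)` has a pole at `s₀` is decided by the orders at `s₀` of
at most `C(d)` Hecke L-functions of fields of degree at most `d 25 ^ (d ^ 2)`, with coefficients whose
sum is at most `C(d)`, and the same linear combination works for all twists of `χ`.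

Proof. As in `SingleHeckeDivisor`, `χ` is induced from an irreducible character `ψ` of a subgroup `T`
with centre `Z`, central character `ω` and `[T : Z] ≤ 25 ^ (d ^ 2)` (Clifford theory and a theorem of
Jordan type). Brauer's formula for `ψ` involves linear characters `l` of subgroups `H` of `T`; its
part over `ω` consists of the characters induced from the common extensions of `l` and `ω` to `H Z`. The
multiplicities of the irreducible characters over `ω`, at most `[T : Z]` in number, in these induced
characters are at most `[T : Z]`. So `ψ` is an integral combination of vectors from a finite set which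
depends on `d` only, and the coefficients can be chosen from a finite set.
-/

set_option autoImplicit false
set_option linter.unusedSectionVars false

open Pool.Agent.H541R3.ART Pool.Agent.Q92.AR Pool.Agent.Helper48.UH

namespace Pool.Agent.Results.MP_d2121a_nt.UniformBrauer

section
variable {K M : Type} [Field K] [NumberField K] [Field M] [NumberField M] [Algebra K M]

/-- `χ` is the sum of the `(a j) Ind (l j)`, where `Ind (l j)` is the character of the group of `M/K`
induced by the linear character `l j` of the group of `M` over the intermediate field `E j`. -/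
def IsComb (χ : (M ≃ₐ[K] M) → ℂ) {n : ℕ} (E : Fin n → IntermediateField K M)
    (l : ∀ j, (M ≃ₐ[E j] M) →* ℂˣ) (a : Fin n → ℤ) : Prop :=
  ∀ g, χ g = ∑ j, (a j : ℂ) * Pool.Agent.Q92.RT.induced (E j).fixingSubgroup
    ((l j).comp (E j).fixingSubgroupEquiv.toMonoidHom) g

/-- `L` is the continuation of the Hecke L-function `L(s, η l)` of the intermediate field `E`, and it
is holomorphic for `Re s > 0`, `s ≠ 1`. -/
def IsHecke (η : (M ≃ₐ[K] M) →* ℂˣ) {E : IntermediateField K M} (l : (M ≃ₐ[E] M) →* ℂˣ)
    (L : ℂ → ℂ) : Prop :=
  Continues L (artinL (K := E) M fun g => (((η (g.restrictScalars K) * l g : ℂˣ)) : ℂ)) ∧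
    ∀ s : ℂ, 0 < s.re → s ≠ 1 → AnalyticAt ℂ L s

/-- The continuation of the Artin L-function `L(s, η χ)` of `K` is the product of the powers
`L(s, η (l j)) ^ (a j)` of Hecke L-functions of the fields `E j` and of a function `e` which is
holomorphic without zeros for `Re s > 0`. -/
def IsProd (χ : (M ≃ₐ[K] M) → ℂ) (η : (M ≃ₐ[K] M) →* ℂˣ) {n : ℕ}
    (E : Fin n → IntermediateField K M) (l : ∀ j, (M ≃ₐ[E j] M) →* ℂˣ) (a : Fin n → ℤ) : Prop :=
  ∃ (e : ℂ → ℂ) (L : Fin n → ℂ → ℂ), (∀ s : ℂ, 0 < s.re → AnalyticAt ℂ e s ∧ e s ≠ 0) ∧
    (∀ j, IsHecke η (l j) (L j)) ∧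
    Continues (fun s => e s * ∏ j, L j s ^ a j) (artinL M fun g => ((η g : ℂˣ) : ℂ) * χ g)

end

/-- For every `d` there is a constant `C` with the following property. Let `M/K` be a Galois extension
of number fields and `χ` an irreducible character of its group, of degree `d`. Then there are a field
`F` between `K` and `M` of degree at most `d 25 ^ (d ^ 2)` over `K` (at most `d ^ 7`, if the group is
solvable), fields `E j` between `K` and `F`, linear characters `l j` of the groups of `M / E j` and
integers `a j ≠ 0` with `∑ |a j| ≤ C` such that `χ = ∑ (a j) Ind (l j)` and, for every linear character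
`η` of the group of `M/K`, `L(s, η χ)` is the product of the powers `L(s, η (l j)) ^ (a j)` of Hecke
L-functions, up to a factor which is holomorphic without zeros for `Re s > 0`. -/
theorem result (d : ℕ) :
    ∃ C : ℕ, ∀ (K M : Type) [Field K] [NumberField K] [Field M] [NumberField M] [Algebra K M]
      [IsGalois K M] (χ : (M ≃ₐ[K] M) → ℂ), χ ∈ Irr (M ≃ₐ[K] M) → χ 1 = d →
      ∃ (F : IntermediateField K M) (n : ℕ) (E : Fin n → IntermediateField K M)
        (l : ∀ j, (M ≃ₐ[E j] M) →* ℂˣ) (a : Fin n → ℤ),
        (Module.finrank K F ≤ d * 25 ^ (d ^ 2) ∧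
          (Group.IsSolvable (M ≃ₐ[K] M) → Module.finrank K F ≤ d ^ 7)) ∧
        (∀ j, E j ≤ F) ∧ (∀ j, a j ≠ 0) ∧ (∑ j, |a j| ≤ C) ∧
        IsComb χ E l a ∧ ∀ η : (M ≃ₐ[K] M) →* ℂˣ, IsProd χ η E l a := by
  classical
  obtain ⟨C, hC⟩ := unif_G d
  refine ⟨C, fun K M _ _ _ _ _ _ χ hχ hd => ?_⟩
  obtain ⟨Z, n, H, l, a, ⟨h1, h2⟩, h3, h4, h5, h6⟩ := hC (M ≃ₐ[K] M) χ hχ hd
  have hfin : Module.finrank K (IntermediateField.fixedField Z) = Z.index := by
    rw [IntermediateField.finrank_eq_fixingSubgroup_index (F := K) M _,
      IntermediateField.fixingSubgroup_fixedField]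
  choose l' hl' htw using fun j => fld_pair (K := K) (M := M) (H j) (l j)
  refine ⟨IntermediateField.fixedField Z, n, fun j => IntermediateField.fixedField (H j), l', a,
    ⟨by rw [hfin]; exact h1, fun hs => by rw [hfin]; exact h2 hs⟩,
    fun j => IntermediateField.fixedField_antitone (h3 j), h4, h5, fun g => ?_, fun η => ?_⟩
  · rw [h6 g]
    refine Finset.sum_congr rfl fun j _ => ?_
    rw [hl' j]
  · choose e L he1 he2 hL hf using fun j => htw j η
    refine ⟨fun s => ∏ j, e j s ^ a j, L, fun s hs => ⟨?_, ?_⟩, hL, fun s hs => ?_,
      fun s hs => ?_⟩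
    · exact Finset.analyticAt_fun_prod _ fun j _ => (he2 j s hs).1.fun_zpow (he2 j s hs).2
    · exact Finset.prod_ne_zero_iff.2 fun j _ => zpow_ne_zero _ (he2 j s hs).2
    · exact (MeromorphicAt.fun_prod fun j _ => (he1 j s hs).fun_zpow _).fun_mul
        (MeromorphicAt.fun_prod fun j _ => ((hL j).1.1 s hs).fun_zpow _)
    · have h7 : (fun g => ((η g : ℂˣ) : ℂ) * χ g) = fun g => ∑ j, (a j : ℂ) *
          (((η g : ℂˣ) : ℂ) * Pool.Agent.Q92.RT.induced (H j) (l j) g) := by
        funext g
        rw [h6 g, Finset.mul_sum]
        exact Finset.sum_congr rfl fun j _ => by ring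
      rw [h7, artinL_sum_int Finset.univ a
        (fun j g => ((η g : ℂˣ) : ℂ) * Pool.Agent.Q92.RT.induced (H j) (l j) g) hs]
      change (∏ j, e j s ^ a j) * ∏ j, L j s ^ a j = _
      rw [← Finset.prod_mul_distrib]
      refine Finset.prod_congr rfl fun j _ => ?_
      rw [hf j s hs, (hL j).1.2 s hs, mul_zpow]

end Pool.Agent.Results.MP_d2121a_nt.UniformBrauer
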